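import Pool.Agent.MP_09973c_nt.H60.BcA

/-!
Geometry of the base curve.
-/

set_option autoImplicit false

namespace Pool.Agent.MP_09973c_nt.H60

open Polynomial Finset IntermediateField Polynomial.Bivariate NNReal
open Pool.Agent.MP_09973c_nt.H58 Pool.Agent.MP_09973c_nt.H31

variable {k Ω : Type} [Field k] [Field Ω] [Algebra k Ω]

theorem red_E {P : Plc k Ω} {u v : Ω} {β β' : k} (hu : P.Red u β) (hv : P.Red v β')
    (G : k[X][X]) : P.Red (E u v G) (E β β' G) := by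
  induction G using Polynomial.induction_on' with
  | add p q hp hq => rw [map_add, map_add]; exact hp.add hq
  | monomial n a =>
    rw [← C_mul_X_pow_eq_monomial]
    simp only [map_mul, map_pow, E_C, E_X]
    exact Plc.Red.mul (by simpa using hu.aeval a) (hv.pow n)

theorem root_le (ν : Valuation Ω ℝ≥0) {f : Polynomial Ω} (hf : f ≠ 0) {z : Ω} (hz : f.eval z = 0)
    {M : ℝ≥0} (hM : 1 ≤ M) (hc : ∀ i, ν (f.coeff i) ≤ M * ν f.leadingCoeff) : ν z ≤ M := by
  by_contra hlt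
  push Not at hlt
  have h1 : 1 < ν z := hM.trans_lt hlt
  have hl : 0 < ν f.leadingCoeff := pos_iff_ne_zero.2 (ν.ne_zero_iff.2 (leadingCoeff_ne_zero.2 hf))
  have hp : 0 < ν f.leadingCoeff * ν z ^ f.natDegree := by positivity
  rw [eval_eq_sum_range, sum_range_succ, add_eq_zero_iff_eq_neg] at hz
  have h2 := ν.map_sum_lt (s := range f.natDegree) (f := fun i => f.coeff i * z ^ i) hp.ne'
    fun i hi => by
      rw [map_mul, map_pow]
      calc ν (f.coeff i) * ν z ^ i ≤ M * ν f.leadingCoeff * ν z ^ i := by gcongr; exact hc i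
        _ < ν z * ν f.leadingCoeff * ν z ^ i := by gcongr
        _ = ν f.leadingCoeff * ν z ^ (i + 1) := by ring
        _ ≤ _ := by gcongr; exacts [h1.le, mem_range.1 hi]
  rw [hz, Valuation.map_neg, map_mul, map_pow] at h2
  exact lt_irrefl _ h2

theorem sum_mult_le (a : k[X]) (T : Finset k) : ∑ β ∈ T, a.rootMultiplicity β ≤ a.natDegree := by
  classical
  refine le_trans ?_ (card_roots' a)
  rw [← Multiset.sum_count_eq_card (s := T ∪ a.roots.toFinset) (fun x hx => by simp [hx])]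
  simp only [count_roots]
  exact sum_le_sum_of_subset subset_union_left

theorem ord_sub {P : Plc k Ω} {x : Ω} {c : k} (h : ¬ P.Red x c) :
    -P.ord (algebraMap k Ω c - x) = max (-P.ord x) 0 := by
  rw [← neg_sub, P.ord_neg]
  by_cases h1 : P.ν x ≤ 1
  · rw [max_eq_right (by simpa using P.ord_nonneg_iff.2 h1), P.ord_eq_zero, neg_zero]
    exact le_antisymm (P.ν.map_sub_le h1 (P.triv c)) (not_lt.1 h)
  · push Not at h1
    rw [max_eq_left (by simpa using (P.ord_neg_iff.2 h1).le)]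
    exact congrArg _ (P.ord_congr (P.ν.map_sub_eq_of_lt_left ((P.triv c).trans_lt h1)))

theorem part_self (b : Ω) {Δ : ℕ} (h1 : 1 ≤ Δ) (β' : k) : ∃ Z : Finset k, Z.card ≤ Δ ∧
    ∀ (β : k) (P : Plc k Ω), P.Red b β → P.Red b β' → β ∈ Z :=
  ⟨{β'}, by simpa using h1, fun _ _ h h' => mem_singleton.2 (h.unique h')⟩

theorem pole_self {b : Ω} {P : Option k → Plc k Ω} (hP : Fam k b P) {S : Subgroup (Ω ≃ₐ[k] Ω)}
    {n : ℕ} {γ : Fin n → Ω ≃ₐ[k] Ω} (hγ : IsAvg (Fix k {b}) S γ) (B : Finset (Option k))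
    {π : ℝ} (hπ : 0 ≤ π) : π * ∑ β ∈ B, ∑ i, max (-(P β).ord (γ i b)) 0 ≤ n * π := by
  classical
  rw [mul_comm]
  refine mul_le_mul_of_nonneg_right ?_ hπ
  have : ∀ β ∈ B, ∑ i, max (-(P β).ord (γ i b)) 0 = if β = none then (n : ℝ) else 0 := by
    intro β _
    simp only [fun i => mem_Fix.1 (hγ.1 i) b rfl]
    cases β with
    | none => simp [hP.1]
    | some β =>
      have := (P (some β)).ord_nonneg_iff.2
        (Plc.red_of_ord (by rw [hP.2 β]; exact one_pos)).le_one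
      simp [max_eq_right (neg_nonpos.2 this)]
  rw [sum_congr rfl this, sum_ite_eq']
  split_ifs <;> simp

namespace Crv

variable {u v : Ω} {F : k[X][X]} {Δ : ℕ} (h : Crv k u v F Δ)
include h

theorem mp_ne : F.map (ps u) ≠ 0 := (Polynomial.map_ne_zero_iff (ps_inj h.tu)).2 h.irr.ne_zero

theorem mp_lc : (F.map (ps u)).leadingCoeff = aeval u F.leadingCoeff :=
  leadingCoeff_map_of_injective (ps_inj h.tu) F

theorem ev_red {P : Plc k Ω} {β β' : k} (hu : P.Red u β) (hv : P.Red v β') : E β β' F = 0 :=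
  (red_E hu hv F).eq_zero_iff.2 (by simp [h.ev])

theorem part (β' : k) : ∃ Z : Finset k, Z.card ≤ Δ ∧
    ∀ (β : k) (P : Plc k Ω), P.Red u β → P.Red v β' → β ∈ Z := by
  classical
  refine ⟨(F.eval (C β')).roots.toFinset, (Multiset.toFinset_card_le _).trans
    ((card_roots' _).trans ((deg_eval F β').trans h.d2)), fun β P hu hv => ?_⟩
  rw [Multiset.mem_toFinset, mem_roots (h.eval_ne β')]
  simpa [h.ev_red hu hv] using (E_const (Ω := k) β β' F).symm

variable [CharZero k] [IsAlgClosed k] [IsAlgClosed Ω]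

theorem good (hPF : PFStmt) (h1 : 1 ≤ Δ) : ∃ Bad : Finset k, Bad.card ≤ 8 * Δ ^ 2 ∧
    ∀ β ∉ Bad, ∀ P : Plc k Ω, P.ord (u - algebraMap k Ω β) = 1 →
      β ≠ 0 ∧ P.VG {u, v} 1 ∧ ∀ b' ∈ ({u, v} : Set Ω), P.Loc b' := by
  obtain ⟨Bad, b1, b2⟩ := h.exists_bad h1
  refine ⟨Bad, b1, fun β hβ P hP => ?_⟩
  obtain ⟨c1, c2, c3⟩ := b2 β hβ
  have hu : P.Red u β := Plc.red_of_ord (by rw [hP]; exact one_pos)
  have hco : ∀ i, P.ν ((F.map (ps u)).coeff i) ≤ 1 := fun i => by
    rw [coeff_map]; exact (hu.aeval _).le_one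
  have hev : (F.map (ps u)).eval v = 0 := by rw [← E_eq, h.ev]
  have hv1 : P.ν v ≤ 1 := root_le P.ν h.mp_ne hev le_rfl fun i => by
    rw [h.mp_lc, (hu.aeval _).eq_one c2, one_mul]; exact hco i
  obtain ⟨β', hv⟩ := P.res v hv1
  obtain ⟨e1, e2, e3⟩ := c3 β' (h.ev_red hu hv)
  refine ⟨c1, ?_, ?_⟩
  · rw [Set.pair_comm]
    refine (hPF k Ω).2.2.2 P {u} 1 _ v ((hPF k Ω).1 P u β hP).1 (fun i => ⟨?_, hco i⟩) hv1 hev ?_
    · rw [coeff_map, ps_apply, ← pg_val]; exact Subtype.coe_prop _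
    · rw [derivative_map, ← E_eq]; exact (red_E hu hv _).eq_one e2
  · rintro b' (rfl | rfl)
    · exact ⟨β, c1, hP⟩
    · obtain ⟨A, B, t1, t2, t3⟩ := taylor2 F β β'
      have t4 := h.ev
      rw [t1, h.ev_red hu hv] at t4
      simp only [map_add, map_mul, map_sub, E_C, E_X, map_zero, zero_add, aeval_X, aeval_C] at t4
      have t5 := congrArg P.ν (eq_neg_of_add_eq_zero_left t4)
      rw [Valuation.map_neg, map_mul, map_mul, (red_E hu hv A).eq_one (t2 ▸ e3),
        (red_E hu hv B).eq_one (t3 ▸ e2), mul_one, mul_one] at t5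
      exact ⟨β', e1, by rw [← P.ord_congr t5, hP]⟩

omit [IsAlgClosed k] in
theorem avg {S : Subgroup (Ω ≃ₐ[k] Ω)} {n : ℕ} {γ : Fin n → Ω ≃ₐ[k] Ω} (hS : S ≤ Fix k {u, v})
    (hγ : IsAvg (Fix k {u}) S γ) (φ : Ω → ℝ) :
    (F.natDegree : ℝ) * ∑ i, φ (γ i v) = n * ((F.map (ps u)).roots.map φ).sum := by
  classical
  have hZ : ∀ g ∈ Fix k {u}, g v ∈ (F.map (ps u)).roots.toFinset := fun g hg => by
    rw [Multiset.mem_toFinset, mem_roots h.mp_ne, IsRoot, ← E_eq]
    have : (g : Ω →+* Ω).comp (E (k := k) u v) = E u (g v) :=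
      hom_ext (fun a => by simp) (by simpa using mem_Fix.1 hg u rfl) (by simp)
    rw [← this]
    simp [h.ev]
  have hf : ∀ g ∈ Fix k {u}, ∀ g' ∈ Fix k {u}, g v = g' v ↔ g⁻¹ * g' ∈ Fix k {u, v} := by
    intro g hg g' hg'
    have := mem_Fix.1 ((Fix k {u}).mul_mem ((Fix k {u}).inv_mem hg) hg') u rfl
    rw [mem_Fix]
    simp only [Set.mem_insert_iff, Set.mem_singleton_iff, forall_eq_or_imp, forall_eq]
    exact ⟨fun e => ⟨this, by simp [← e]⟩, fun e => by simpa using (congrArg g e.2).symm⟩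
  have hre := realize (fun g => g v) _ hZ (fun g hg g' hg' e => (hf g hg g' hg').1 e) (by
    rw [h.idx]
    exact (Multiset.toFinset_card_le _).trans ((card_roots' _).trans natDegree_map_le))
  rw [← sum_fiberwise_of_maps_to (t := (F.map (ps u)).roots.toFinset) (g := fun i => γ i v)
    (fun i _ => hZ _ (hγ.1 i)), mul_sum,
    ← Multiset.dedup_eq_self.2 (nodup_roots h.sep), ← Multiset.toFinset_val, ← Finset.sum, mul_sum]
  refine sum_congr (by simp) fun ρ hρ => ?_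
  obtain ⟨g, hg, rfl⟩ := hre ρ (by simpa using hρ)
  have h2 := hγ.coset hS hg
  rw [h.idx, Fintype.card_fin, filter_congr fun i _ => (hf g hg _ (hγ.1 i)).symm] at h2
  rw [sum_congr rfl fun i hi => congrArg φ (mem_filter.1 hi).2, sum_const, nsmul_eq_mul,
    ← mul_assoc, filter_congr fun i _ => eq_comm, mul_comm (F.natDegree : ℝ), ← Nat.cast_mul, h2]

theorem pole (hPF : PFStmt) {P : Option k → Plc k Ω} (hP : Fam k u P) {S : Subgroup (Ω ≃ₐ[k] Ω)}
    {n : ℕ} {γ : Fin n → Ω ≃ₐ[k] Ω} (hS : S ≤ Fix k {u, v}) (hγ : IsAvg (Fix k {u}) S γ)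
    (B : Finset (Option k)) : (F.natDegree : ℝ) * ∑ β ∈ B, ∑ i, max (-(P β).ord (γ i v)) 0 ≤
      n * ((swap F).natDegree : ℝ) := by
  classical
  have hfin : (⋃ β ∈ B, ⋃ i, {c : k | (P β).Red (γ i v) c}).Finite :=
    B.finite_toSet.biUnion fun β _ => Set.finite_iUnion fun i =>
      Set.Subsingleton.finite fun _ hx _ hy => Plc.Red.unique hx hy
  obtain ⟨c, hc⟩ := hfin.exists_notMem
  simp only [Set.mem_iUnion, Set.mem_ofPred_eq, not_exists] at hc
  set g := F.eval (C c) with hg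
  set a := F.leadingCoeff with ha
  have g0 : g ≠ 0 := h.eval_ne c
  have a0 : a ≠ 0 := h.lc
  have key : ∀ β ∈ B, (F.natDegree : ℝ) * ∑ i, max (-(P β).ord (γ i v)) 0 =
      n * ((P β).ord (aeval u a) - (P β).ord (aeval u g)) := fun β hβ => by
    rw [sum_congr rfl fun i _ => (ord_sub (hc β hβ i)).symm,
      h.avg hS hγ fun x => -(P β).ord (algebraMap k Ω c - x)]
    congr 1
    have e1 := (IsAlgClosed.splits (F.map (ps u))).eval_eq_prod_roots (algebraMap k Ω c)
    rw [← E_eq, E_const, h.mp_lc] at e1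
    have e2 := aeval_ne h.tu g0
    rw [e1] at e2 ⊢
    rw [(P β).ord_mul (left_ne_zero_of_mul e2) (right_ne_zero_of_mul e2), sub_add_cancel_left]
    have e3 := right_ne_zero_of_mul e2
    generalize (F.map (ps u)).roots = m at e3 ⊢
    induction m using Multiset.induction_on with
    | empty => simp
    | cons x m ih =>
      rw [Multiset.map_cons, Multiset.prod_cons] at e3
      rw [Multiset.map_cons, Multiset.map_cons, Multiset.sum_cons, Multiset.prod_cons,
        ih (right_ne_zero_of_mul e3),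
        (P β).ord_mul (left_ne_zero_of_mul e3) (right_ne_zero_of_mul e3), neg_add]
  rw [mul_sum, sum_congr rfl key, ← mul_sum]
  refine mul_le_mul_of_nonneg_left ?_ (Nat.cast_nonneg n)
  have e4 : ∀ β ∈ B, (P β).ord (aeval u a) - (P β).ord (aeval u g) ≤
      Option.elim' 0 (fun x => (a.rootMultiplicity x : ℝ)) β +
        if β = none then (g.natDegree : ℝ) - a.natDegree else 0 := by
    rintro (_ | β) -
    · have := ((hPF k Ω).2.1 _ u hP.1).2
      rw [this a a0, this g g0]; simp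
    · have := ((hPF k Ω).1 _ u β (hP.2 β)).2
      rw [this a a0, this g g0]; simp
  refine (sum_le_sum e4).trans ?_
  rw [sum_add_distrib, ← sum_eraseNone, sum_ite_eq']
  have e5 : (∑ x ∈ B.eraseNone, (a.rootMultiplicity x : ℝ)) ≤ a.natDegree := by
    exact_mod_cast sum_mult_le a _
  have e6 : (a.natDegree : ℝ) ≤ (swap F).natDegree := by exact_mod_cast natDegree_coeff_le F _
  have e7 : (g.natDegree : ℝ) ≤ (swap F).natDegree := by exact_mod_cast deg_eval F c
  split_ifs <;> linarith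

omit [IsAlgClosed k] in
theorem den {P : Plc k Ω} (hP : P.VG {u} 1) {x : Ω} (hx : x ∈ adjoin k {u, v}) (h0 : x ≠ 0) :
    ∃ e : ℕ, 1 ≤ e ∧ e ≤ Δ ∧ ∃ m : ℤ, e * P.ord x = m := by
  classical
  by_contra hne
  push Not at hne
  have hi : PowInd k {u} x (Δ + 1) := by
    refine Fintype.linearIndependent_iff.2 fun c hc => ?_
    rcases val_sum_distinct P.ν univ (fun e : Fin (Δ + 1) => c e • x ^ (e : ℕ))
      (fun i _ j _ hi hj hij => by
        have key : ∀ e : Fin (Δ + 1), c e • x ^ (e : ℕ) ≠ 0 →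
            ∃ m : ℤ, P.ord (c e • x ^ (e : ℕ)) = m + (e : ℕ) * P.ord x := fun e he => by
          have hc0 : (c e : Ω) ≠ 0 := fun h0 =>
            he (by rw [IntermediateField.smul_def, h0, zero_smul])
          obtain ⟨m, hm⟩ := hP _ (c e).2 hc0
          exact ⟨m, by rw [IntermediateField.smul_def, smul_eq_mul,
            P.ord_mul hc0 (pow_ne_zero _ h0), hm, P.ord_pow, mul_one]⟩
        obtain ⟨m, hm⟩ := key i hi
        obtain ⟨m', hm'⟩ := key j hj
        have h1 := P.ord_congr hij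
        rw [hm, hm'] at h1
        have := i.2
        have := j.2
        rcases lt_trichotomy (i : ℕ) j with h2 | h2 | h2
        · exact absurd (by rw [Nat.cast_sub h2.le]; push_cast; linarith)
            (hne (j - i) (by omega) (by omega) (m - m'))
        · exact Fin.ext h2
        · exact absurd (by rw [Nat.cast_sub h2.le]; push_cast; linarith)
            (hne (i - j) (by omega) (by omega) (m' - m))) with h1 | ⟨i, -, hi, h1⟩
    · intro i
      have := h1 i (mem_univ _)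
      rw [IntermediateField.smul_def, smul_eq_mul] at this
      exact Subtype.ext ((mul_eq_zero.1 this).resolve_right (pow_ne_zero _ h0))
    · rw [hc, map_zero] at h1
      exact absurd (P.ν.zero_iff.1 h1.symm) hi
  have := card_le_relIndex (S' := {u, v}) h.au (by rw [h.idx]; exact h.pos) _
    (fun e : Fin (Δ + 1) => pow_mem (adjoin.mono _ _ _ Set.subset_union_right hx) _) hi
  rw [h.idx, Fintype.card_fin] at this
  have := h.d1
  omega

theorem vg (hPF : PFStmt) (h1 : 1 ≤ Δ) (P : Plc k Ω) (hP : P.ord u = -1) :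
    ∃ e : ℕ, 1 ≤ e ∧ e ≤ Δ ∧ P.VG {u, v} (1 / e) ∧
      (∃ x ∈ adjoin k {u, v}, x ≠ 0 ∧ P.ord x = 1 / e) ∧ ∀ b' ∈ ({u, v} : Set Ω), -P.ord b' ≤ Δ := by
  obtain ⟨p1, p2⟩ := (hPF k Ω).2.1 P u hP
  have u0 : u ≠ 0 := P.ne_zero_of_ord (by rw [hP]; simp)
  have hN : (0 : ℝ) < (Δ.factorial : ℕ) := by exact_mod_cast Δ.factorial_pos
  let H : AddSubgroup ℤ :=
    { carrier := {m | ∃ x ∈ adjoin k {u, v}, x ≠ 0 ∧ P.ord x = m / (Δ.factorial : ℕ)}
      zero_mem' := ⟨1, one_mem _, one_ne_zero, by simp⟩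
      add_mem' := by
        rintro a b ⟨x, x1, x2, x3⟩ ⟨y, y1, y2, y3⟩
        exact ⟨x * y, mul_mem x1 y1, mul_ne_zero x2 y2, by
          rw [P.ord_mul x2 y2, x3, y3]; push_cast; ring⟩
      neg_mem' := by
        rintro a ⟨x, x1, x2, x3⟩
        exact ⟨x⁻¹, inv_mem x1, inv_ne_zero x2, by rw [P.ord_inv, x3]; push_cast; ring⟩ }
  obtain ⟨a, ha⟩ := Int.subgroup_cyclic H
  have hd : ∀ m : ℤ, m ∈ H ↔ (a.natAbs : ℤ) ∣ m := fun m => by
    rw [ha, AddSubgroup.mem_closure_singleton, Int.natAbs_dvd]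
    exact ⟨fun ⟨t, ht⟩ => ⟨t, by rw [← ht, smul_eq_mul, mul_comm]⟩,
      fun ⟨t, ht⟩ => ⟨t, by rw [ht, smul_eq_mul, mul_comm]⟩⟩
  obtain ⟨e, he⟩ : a.natAbs ∣ Δ.factorial := Int.natCast_dvd_natCast.1 ((hd _).1
    ⟨u⁻¹, inv_mem (subset_adjoin k _ (by simp)), inv_ne_zero u0, by
      rw [P.ord_inv, hP, Int.cast_natCast, div_self hN.ne', neg_neg]⟩)
  have e0 : 0 < e := Nat.pos_of_mul_pos_left (he ▸ Δ.factorial_pos)
  have a0 : 0 < a.natAbs := Nat.pos_of_mul_pos_right (he ▸ Δ.factorial_pos)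
  have e1 : (0 : ℝ) < e := by exact_mod_cast e0
  have e2 : ((a.natAbs : ℤ) : ℝ) / (Δ.factorial : ℕ) = 1 / e := by
    have : (0 : ℝ) < a.natAbs := by exact_mod_cast a0
    rw [he, Int.cast_natCast]; push_cast; field_simp
  obtain ⟨x, x1, x2, x3⟩ := (hd _).2 dvd_rfl
  rw [e2] at x3
  refine ⟨e, e0, ?_, fun y y1 y2 => ?_, ⟨x, x1, x2, x3⟩, ?_⟩
  · obtain ⟨e', f1, f2, m, f3⟩ := h.den p1 x1 x2
    rw [x3] at f3
    have : (e' : ℤ) = e * m := by
      have : (e' : ℝ) = e * m := by rw [← f3]; field_simp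
      exact_mod_cast this
    exact (Nat.le_of_dvd f1 (Int.natCast_dvd_natCast.1 ⟨m, this⟩)).trans f2
  · obtain ⟨e', f1, f2, m, f3⟩ := h.den p1 y1 y2
    obtain ⟨t, ht⟩ := Nat.dvd_factorial f1 f2
    have f4 : P.ord y = (m * t : ℤ) / (Δ.factorial : ℕ) := by
      rw [eq_div_iff hN.ne', ht]; push_cast; rw [← f3]; ring
    obtain ⟨w, hw⟩ := (hd _).1 ⟨y, y1, y2, f4⟩
    exact ⟨w, by rw [f4, hw, ← e2]; push_cast; ring⟩
  · rintro b' (rfl | rfl)
    · rw [hP, neg_neg]; exact_mod_cast h1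
    · have v0 : b' ≠ 0 := fun h0 => aeval_ne h.tv X_ne_zero (by simpa using h0)
      have l0 := aeval_ne h.tu h.lc
      have hM : 1 ≤ P.ν (u ^ Δ) := by
        rw [map_pow]; exact one_le_pow₀ (P.ord_neg_iff.1 (by rw [hP]; simp)).le
      have := root_le P.ν h.mp_ne (by rw [← E_eq, h.ev]) hM fun i => by
        rw [coeff_map, h.mp_lc, ps_apply, ← map_mul]
        by_cases hi : F.coeff i = 0
        · simp [hi]
        rw [← P.ord_le_iff (mul_ne_zero (pow_ne_zero _ u0) l0) (aeval_ne h.tu hi),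
          P.ord_mul (pow_ne_zero _ u0) l0, P.ord_pow, hP, p2 _ hi, p2 _ h.lc]
        have : ((F.coeff i).natDegree : ℝ) ≤ Δ := by exact_mod_cast h.co i
        have : (0 : ℝ) ≤ F.leadingCoeff.natDegree := Nat.cast_nonneg _
        linarith
      rw [← P.ord_le_iff (pow_ne_zero _ u0) v0, P.ord_pow, hP] at this
      linarith

end Crv

theorem bc (hPF : PFStmt) : BCStmt := by
  intro k Ω _ _ _ _ _ _ u v R Δ hu hv au hR h1 d1 d2 ev
  obtain ⟨F, h⟩ := exists_crv hu hv au hR d1 d2 ev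
  have h' := h.symm
  have i1 := h.idx
  have i2 := h'.idx
  rw [Set.pair_comm] at i2
  refine ⟨h1, Set.toFinite _, ?_, ?_, ?_, ?_,
    ⟨fun b => ((Fix k {u, v}).relIndex (Fix k {b}) : ℕ), ?_, ?_⟩, ?_⟩
  · rintro b (rfl | rfl)
    exacts [⟨hu, au⟩, ⟨hv, h.av⟩]
  · rintro b (rfl | rfl)
    exacts [i1 ▸ ⟨h.pos, h.d1⟩, i2 ▸ ⟨h'.pos, h'.d1⟩]
  · rintro b (rfl | rfl)
    · exact h.good hPF h1
    · rw [Set.pair_comm]; exact h'.good hPF h1
  · rintro b (rfl | rfl) b' (rfl | rfl)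
    exacts [part_self _ h1, h.part, h'.part, part_self _ h1]
  · rintro b (rfl | rfl) <;> beta_reduce
    · rw [i1]; exact_mod_cast Nat.pos_of_ne_zero h.pos
    · rw [i2]; exact_mod_cast Nat.pos_of_ne_zero h'.pos
  · rintro b (rfl | rfl) b' (rfl | rfl) P hP S n γ hS hγ B <;> beta_reduce
    · exact pole_self hP hγ B (Nat.cast_nonneg _)
    · rw [i1, i2]; exact h.pole hPF hP hS hγ B
    · rw [i1, i2]
      have := h'.pole hPF hP (by rwa [Set.pair_comm]) hγ B
      rwa [swap_swap_apply] at this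
    · exact pole_self hP hγ B (Nat.cast_nonneg _)
  · rintro b (rfl | rfl)
    · exact h.vg hPF h1
    · rw [Set.pair_comm]; exact h'.vg hPF h1

end Pool.Agent.MP_09973c_nt.H60
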