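import Pool.Agent.MP_09973c_nt.H58.SpecF

/-!
Algebra of an irreducible plane curve.
-/

set_option autoImplicit false

namespace Pool.Agent.MP_09973c_nt.H60

open Polynomial Finset IntermediateField Polynomial.Bivariate Pool.Agent.MP_09973c_nt.H58

variable {k Ω : Type} [Field k] [Field Ω] [Algebra k Ω]

/-- Substitution in the inner variable. -/
noncomputable def ps (u : Ω) : k[X] →+* Ω := eval₂RingHom (algebraMap k Ω) u

theorem ps_apply (u : Ω) (a : k[X]) : ps u a = aeval u a := rfl

/-- Substitution in both variables. -/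
noncomputable def E (u v : Ω) : k[X][X] →+* Ω := eval₂RingHom (ps u) v

theorem E_eq (u v : Ω) (G : k[X][X]) : E u v G = (G.map (ps u)).eval v := by
  rw [eval_map]; rfl

@[simp] theorem E_C (u v : Ω) (a : k[X]) : E u v (C a) = aeval u a := by simp [E, ps_apply]

@[simp] theorem E_X (u v : Ω) : E u v (X : k[X][X]) = v := by simp [E]

theorem hom_ext {T : Type} [Semiring T] {f g : k[X][X] →+* T}
    (h1 : ∀ a, f (C (C a)) = g (C (C a))) (h2 : f (C X) = g (C X)) (h3 : f X = g X) : f = g :=
  Polynomial.ringHom_ext' (Polynomial.ringHom_ext (by simpa using h1) (by simpa using h2)) h3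

theorem E_swap (u v : Ω) (G : k[X][X]) : E v u (swap G) = E u v G := by
  have : (E v u).comp (swap (R := k)).toRingEquiv.toRingHom = E u v :=
    hom_ext (fun a => by simp [swap_C_C]) (by simp [swap_X]) (by simp [swap_Y])
  exact congrArg (fun f : k[X][X] →+* Ω => f G) this

theorem E_const (u : Ω) (c : k) (G : k[X][X]) :
    E u (algebraMap k Ω c) G = aeval u (G.eval (C c)) := by
  have : E u (algebraMap k Ω c) = (ps u).comp (evalRingHom (C c)) :=
    hom_ext (fun a => by simp [ps_apply]) (by simp [ps_apply]) (by simp [ps_apply])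
  exact congrArg (fun f : k[X][X] →+* Ω => f G) this

theorem map_swap (c : k) (G : k[X][X]) : (swap G).map (ps c) = G.eval (C c) := by
  have : (mapRingHom (ps c)).comp (swap (R := k)).toRingEquiv.toRingHom = evalRingHom (C c) :=
    hom_ext (fun a => by simp [swap_C_C, ps_apply]) (by simp [swap_X])
      (by simp [swap_Y, ps_apply])
  exact congrArg (fun f : k[X][X] →+* k[X] => f G) this

theorem deg_eval (G : k[X][X]) (c : k) : (G.eval (C c)).natDegree ≤ (swap G).natDegree := by
  rw [← map_swap]; exact natDegree_map_le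

theorem coeff_swap (G : k[X][X]) (i j : ℕ) :
    ((swap G).coeff j).coeff i = (G.coeff i).coeff j := by
  induction G using Polynomial.induction_on' with
  | add p q hp hq => simp [hp, hq]
  | monomial n a =>
    induction a using Polynomial.induction_on' with
    | add p q hp hq => simp only [map_add, coeff_add, hp, hq]
    | monomial m r =>
      rw [swap_monomial_monomial]
      simp only [coeff_monomial]
      split_ifs <;> simp_all [coeff_monomial]

theorem natDegree_swap_le {G : k[X][X]} {Δ : ℕ} (h : ∀ i, (G.coeff i).natDegree ≤ Δ) :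
    (swap G).natDegree ≤ Δ :=
  natDegree_le_iff_coeff_eq_zero.2 fun j hj => Polynomial.ext fun i => by
    rw [coeff_swap, coeff_eq_zero_of_natDegree_lt ((h i).trans_lt hj), coeff_zero]

theorem natDegree_coeff_le (G : k[X][X]) (i : ℕ) : (G.coeff i).natDegree ≤ (swap G).natDegree :=
  natDegree_le_iff_coeff_eq_zero.2 fun j hj => by
    rw [← coeff_swap, coeff_eq_zero_of_natDegree_lt hj, coeff_zero]

theorem natDegree_res (F G : k[X][X]) (Δ : ℕ) (hF : ∀ i, (F.coeff i).natDegree ≤ Δ)
    (hG : ∀ i, (G.coeff i).natDegree ≤ Δ) (m n : ℕ) :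
    (resultant F G m n).natDegree ≤ (m + n) * Δ := by
  have h : ∀ i j, (sylvester F G m n i j).natDegree ≤ Δ := fun i j => by
    refine Fin.addCases (fun j => ?_) (fun j => ?_) j <;>
      simp only [sylvester, Matrix.of_apply, Fin.addCases_left, Fin.addCases_right] <;>
      split_ifs <;> simp [hF, hG]
  rw [resultant, Matrix.det_apply]
  refine natDegree_sum_le_of_forall_le _ _ fun σ _ => (natDegree_smul_le _ _).trans ?_
  refine (natDegree_prod_le _ _).trans ((sum_le_card_nsmul _ _ Δ fun i _ => h _ _).trans ?_)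
  simp

/-- Taylor expansion at a point. -/
theorem taylor2 (G : k[X][X]) (β β' : k) : ∃ A B : k[X][X],
    G = C (C (E β β' G)) + C (X - C β) * A + (X - C (C β')) * B ∧
      E β β' A = E β β' (swap (derivative (swap G))) ∧ E β β' B = E β β' (derivative G) := by
  obtain ⟨B, hB⟩ : X - C (C β') ∣ G - C (G.eval (C β')) := X_sub_C_dvd_sub_C_eval
  obtain ⟨a, ha⟩ : X - C β ∣ G.eval (C β') - C ((G.eval (C β')).eval β) := X_sub_C_dvd_sub_C_eval
  have h0 : E β β' G = (G.eval (C β')).eval β := by
    simpa using E_const (Ω := k) β β' G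
  refine ⟨C a, B, ?_, ?_, ?_⟩
  · rw [h0, ← C_mul, ← ha, ← hB, C_sub]; ring
  · rw [E_swap, E_eq β' β, ← derivative_map, map_swap]
    have := congrArg (fun p => (derivative p).eval β) ha
    simpa using this.symm
  · have := congrArg (fun p => E β β' (derivative p)) hB
    simpa using this.symm

variable (k) in
/-- An irreducible equation between two transcendental elements. -/
structure Crv (u v : Ω) (F : k[X][X]) (Δ : ℕ) : Prop where
  tu : Transcendental k u
  tv : Transcendental k v
  au : Algebra.IsAlgebraic (adjoin k {u}) Ω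
  av : Algebra.IsAlgebraic (adjoin k {v}) Ω
  irr : Irreducible F
  ev : E u v F = 0
  d1 : F.natDegree ≤ Δ
  d2 : (swap F).natDegree ≤ Δ

theorem aeval_ne {u : Ω} (hu : Transcendental k u) {a : k[X]} (ha : a ≠ 0) : aeval u a ≠ 0 :=
  fun h => hu ⟨a, ha, h⟩

theorem ps_inj {u : Ω} (hu : Transcendental k u) : Function.Injective (ps u : k[X] →+* Ω) :=
  (injective_iff_map_eq_zero _).2 fun _ h => by_contra fun ha => aeval_ne hu ha h

/-- Substitution with values in `k(u)`. -/
noncomputable def pg (u : Ω) : k[X] →+* adjoin k {u} :=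
  eval₂RingHom (algebraMap k _) (AdjoinSimple.gen k u)

theorem pg_comp (u : Ω) : (algebraMap (adjoin k {u}) Ω).comp (pg u) = ps u :=
  Polynomial.ringHom_ext (fun a => by simp [pg, ps]) (by simp [pg, ps])

theorem pg_val (u : Ω) (a : k[X]) : ((pg u a : adjoin k {u}) : Ω) = aeval u a :=
  congrArg (fun f : k[X] →+* Ω => f a) (pg_comp u)

theorem aeval_pg (u v : Ω) (G : k[X][X]) : aeval v (G.map (pg u)) = E u v G := by
  rw [aeval_def, eval₂_map, pg_comp]; rfl

theorem pg_inj {u : Ω} (hu : Transcendental k u) : Function.Injective (pg (k := k) u) :=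
  Function.Injective.of_comp (f := algebraMap (adjoin k {u}) Ω) (by
    rw [← RingHom.coe_comp, pg_comp]; exact ps_inj hu)

theorem alg_swap {u v : Ω} (hv : Transcendental k v) (au : Algebra.IsAlgebraic (adjoin k {u}) Ω)
    {G : k[X][X]} (hG : G ≠ 0) (ev : E u v G = 0) : Algebra.IsAlgebraic (adjoin k {v}) Ω := by
  have h1 : IsAlgebraic (adjoin k {v}) u :=
    ⟨(swap G).map (pg v), (Polynomial.map_ne_zero_iff (pg_inj hv)).2 (by simpa using hG),
      by rw [aeval_pg, E_swap, ev]⟩
  have h2 : Algebra.IsAlgebraic (adjoin k {v}) (adjoin (adjoin k {v}) {u}) :=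
    isAlgebraic_adjoin_simple h1.isIntegral
  have hle : ∀ y : adjoin k {u}, (y : Ω) ∈ adjoin (adjoin k {v}) {u} := fun y => by
    have : adjoin k {u} ≤ (adjoin (adjoin k {v}) {u}).restrictScalars k :=
      adjoin_le_iff.2 (by simp)
    exact this y.2
  let : Algebra (adjoin k {u}) (adjoin (adjoin k {v}) {u}) :=
    ((algebraMap (adjoin k {u}) Ω).codRestrict _ hle).toAlgebra
  have : IsScalarTower (adjoin k {u}) (adjoin (adjoin k {v}) {u}) Ω :=
    IsScalarTower.of_algebraMap_eq fun _ => rfl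
  have : Algebra.IsAlgebraic (adjoin (adjoin k {v}) {u}) Ω :=
    Algebra.IsAlgebraic.tower_top (K := adjoin k {u}) _
  exact Algebra.IsAlgebraic.trans _ (adjoin (adjoin k {v}) {u}) _

theorem exists_crv {u v : Ω} {R : k[X][X]} {Δ : ℕ} (hu : Transcendental k u)
    (hv : Transcendental k v) (au : Algebra.IsAlgebraic (adjoin k {u}) Ω) (hR : R ≠ 0)
    (h1 : R.natDegree ≤ Δ) (h2 : ∀ i, (R.coeff i).natDegree ≤ Δ) (ev : E u v R = 0) :
    ∃ F, Crv k u v F Δ := by
  have key : ∀ G : k[X][X], G ≠ 0 → E u v G = 0 → ∃ F, Irreducible F ∧ F ∣ G ∧ E u v F = 0 := by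
    intro G
    induction G using WfDvdMonoid.induction_on_irreducible with
    | zero => exact fun h => absurd rfl h
    | unit G hG => exact fun _ h => absurd h (hG.map (E u v)).ne_zero
    | mul a p ha hp ih =>
      intro _ h
      rw [map_mul] at h
      rcases mul_eq_zero.1 h with h | h
      · exact ⟨p, hp, dvd_mul_right _ _, h⟩
      · obtain ⟨F, h1, h2, h3⟩ := ih ha h
        exact ⟨F, h1, h2.mul_left _, h3⟩
  obtain ⟨F, h3, h4, h5⟩ := key R hR ev
  exact ⟨F, hu, hv, au, alg_swap hv au hR ev, h3, h5, (natDegree_le_of_dvd h4 hR).trans h1,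
    (natDegree_le_of_dvd (map_dvd swap h4) (by simpa using hR)).trans (natDegree_swap_le h2)⟩

namespace Crv

variable {u v : Ω} {F : k[X][X]} {Δ : ℕ} (h : Crv k u v F Δ)
include h

theorem symm : Crv k v u (swap F) Δ :=
  ⟨h.tv, h.tu, h.av, h.au, (MulEquiv.irreducible_iff (swap (R := k))).2 h.irr,
    by rw [E_swap, h.ev], h.d2, by rw [swap_swap_apply]; exact h.d1⟩

theorem co (i : ℕ) : (F.coeff i).natDegree ≤ Δ := (natDegree_coeff_le F i).trans h.d2

theorem pos : F.natDegree ≠ 0 := fun h0 => by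
  have h1 := h.ev
  have h2 := h.irr.ne_zero
  rw [eq_C_of_natDegree_eq_zero h0] at h1 h2
  exact aeval_ne h.tu (C_ne_zero.1 h2) (by simpa using h1)

theorem lc : F.leadingCoeff ≠ 0 := leadingCoeff_ne_zero.2 h.irr.ne_zero

theorem eval_ne (c : k) : F.eval (C c) ≠ 0 := fun h0 => by
  obtain ⟨G, hG⟩ := dvd_iff_isRoot.2 h0
  have h1 := h.ev
  rw [hG, map_mul] at h1
  rcases mul_eq_zero.1 h1 with h1 | h1
  · exact aeval_ne h.tv (X_sub_C_ne_zero c) (by simpa using h1)
  · exact (((h.irr.isUnit_or_isUnit hG).resolve_left (not_isUnit_X_sub_C _)).map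
      (E u v)).ne_zero h1

theorem irr' : Irreducible (F.map (pg u)) := by
  let : Algebra k[X] (adjoin k {u}) := (pg u).toAlgebra
  have : FaithfulSMul k[X] (adjoin k {u}) :=
    (faithfulSMul_iff_algebraMap_injective _ _).2 (pg_inj h.tu)
  have : IsFractionRing k[X] (adjoin k {u}) := IsFractionRing.of_field _ _ fun z => by
    obtain ⟨r, s, hrs⟩ := (mem_adjoin_simple_iff k z.1).1 z.2
    refine ⟨r, s, Subtype.ext ?_⟩
    rw [hrs, ← pg_val, ← pg_val]; rfl
  exact ((h.irr.isPrimitive h.pos).irreducible_iff_irreducible_map_fraction_map).1 h.irr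

theorem res_ne {G : k[X][X]} (hG : E u v G ≠ 0) : resultant F G ≠ 0 := fun h0 => by
  have h1 : IsCoprime (F.map (pg u)) (G.map (pg u)) := h.irr'.coprime_iff_not_dvd.2 fun hd => by
    obtain ⟨Q, hQ⟩ := hd
    apply hG
    rw [← aeval_pg, hQ, map_mul, aeval_pg, h.ev, zero_mul]
  have := resultant_ne_zero _ _ h1
  rw [natDegree_map_eq_of_injective (pg_inj h.tu), natDegree_map_eq_of_injective (pg_inj h.tu),
    resultant_map_map, h0, map_zero] at this
  exact this rfl

variable [CharZero k]

theorem sep : (F.map (ps u)).Separable := by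
  have : CharZero (adjoin k {u}) := charZero_of_injective_algebraMap (algebraMap k _).injective
  rw [← pg_comp, ← Polynomial.map_map]
  exact h.irr'.separable.map

theorem der_ne : E u v (derivative F) ≠ 0 := by
  have := h.sep.aeval_derivative_ne_zero (x := v) (by simpa [E_eq] using h.ev)
  simpa [E_eq, derivative_map] using this

theorem der_ne' : E u v (swap (derivative (swap F))) ≠ 0 := by
  rw [E_swap]; exact h.symm.der_ne

theorem idx [IsAlgClosed Ω] : (Fix k {u, v}).relIndex (Fix k {u}) = F.natDegree := by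
  rw [Set.pair_comm, relIndex_insert, relIndex_eq_finrank h.au,
    adjoin.finrank (h.au.isAlgebraic v).isIntegral,
    ← minpoly.eq_of_irreducible h.irr' (by rw [aeval_pg, h.ev]),
    natDegree_mul_C (inv_ne_zero (leadingCoeff_ne_zero.2 h.irr'.ne_zero)),
    natDegree_map_eq_of_injective (pg_inj h.tu)]

/-- The bad set. -/
theorem exists_bad (h1 : 1 ≤ Δ) : ∃ Bad : Finset k, Bad.card ≤ 8 * Δ ^ 2 ∧ ∀ β ∉ Bad, β ≠ 0 ∧
    F.leadingCoeff.eval β ≠ 0 ∧ ∀ β', E β β' F = 0 → β' ≠ 0 ∧ E β β' (derivative F) ≠ 0 ∧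
      E β β' (swap (derivative (swap F))) ≠ 0 := by
  classical
  have hr : ∀ G : k[X][X], G.natDegree ≤ Δ → (swap G).natDegree ≤ Δ →
      (resultant F G).natDegree ≤ 2 * Δ ^ 2 ∧ ∀ β β' : k, (resultant F G).eval β ≠ 0 →
        E β β' F = 0 → E β β' G ≠ 0 := fun G g1 g2 => by
    refine ⟨(natDegree_res F G Δ h.co (fun i => (natDegree_coeff_le G i).trans g2) _ _).trans ?_,
      fun β β' hβ h0 h2 => hβ ?_⟩
    · have := h.d1; nlinarith
    · obtain ⟨p, q, -, -, e⟩ := exists_mul_add_mul_eq_C_resultant F G le_rfl le_rfl (Or.inl h.pos)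
      have := congrArg (E β β') e
      simpa [h0, h2] using this.symm
  have dd : ∀ G : k[X][X], (swap (derivative G)).natDegree ≤ (swap G).natDegree := fun G =>
    natDegree_swap_le fun i => by
      rw [coeff_derivative]
      exact natDegree_mul_le.trans (by
        rw [← Nat.cast_succ, natDegree_natCast]; exact natDegree_coeff_le G _)
  have dl : ∀ G : k[X][X], (derivative G).natDegree ≤ G.natDegree := fun G =>
    (natDegree_derivative_le G).trans (Nat.sub_le _ _)
  obtain ⟨a1, a2⟩ := hr (derivative F) ((dl F).trans h.d1) ((dd F).trans h.d2)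
  obtain ⟨b1, b2⟩ := hr (swap (derivative (swap F))) ((dd _).trans h.symm.d2)
    (by rw [swap_swap_apply]; exact (dl _).trans h.d2)
  set T : k[X] := X * F.leadingCoeff * F.eval (C 0) * resultant F (derivative F) *
    resultant F (swap (derivative (swap F))) with hT
  have hT0 : T ≠ 0 := mul_ne_zero (mul_ne_zero (mul_ne_zero (mul_ne_zero X_ne_zero h.lc)
    (h.eval_ne 0)) (h.res_ne h.der_ne)) (h.res_ne h.der_ne')
  refine ⟨T.roots.toFinset, (Multiset.toFinset_card_le _).trans ((card_roots' T).trans ?_),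
    fun β hβ => ?_⟩
  · have c1 : F.leadingCoeff.natDegree ≤ Δ := h.co _
    have c2 := (deg_eval F 0).trans h.d2
    have c3 : T.natDegree ≤ 1 + Δ + Δ + 2 * Δ ^ 2 + 2 * Δ ^ 2 :=
      natDegree_mul_le_of_le (natDegree_mul_le_of_le (natDegree_mul_le_of_le
        (natDegree_mul_le_of_le natDegree_X_le c1) c2) a1) b1
    nlinarith
  · rw [Multiset.mem_toFinset, mem_roots hT0, IsRoot, hT] at hβ
    simp only [eval_mul, mul_eq_zero, not_or, eval_X] at hβ
    obtain ⟨⟨⟨⟨e1, e2⟩, e3⟩, e4⟩, e5⟩ := hβ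
    refine ⟨e1, e2, fun β' h0 => ⟨?_, a2 β β' e4 h0, b2 β β' e5 h0⟩⟩
    rintro rfl
    exact e3 (by simpa [h0] using (E_const (Ω := k) β 0 F).symm)

end Crv

end Pool.Agent.MP_09973c_nt.H60
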